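import Pool.Agent.H817R5.EP.Stubs

set_option autoImplicit false

open Finset

namespace Pool.Agent.H9R5.EP

open Pool.Agent.H817R5.EP

theorem gap_card (z N : ℕ) :
    (((primesTo z).powerset.filter (fun S : Finset ℕ => ∏ p ∈ S, p ≤ N)).card : ℝ) ≤ N := by
  have h : ((primesTo z).powerset.filter (fun S : Finset ℕ => ∏ p ∈ S, p ≤ N)).card ≤
      (Icc 1 N).card := by
    refine card_le_card_of_injOn (fun S => ∏ p ∈ S, p) ?_ ?_
    · intro S hS
      have hS' := mem_filter.1 (mem_coe.1 hS)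
      have hpr : ∀ p ∈ S, p.Prime := fun p hp =>
        (mem_filter.1 ((mem_powerset.1 hS'.1) hp)).2
      refine mem_coe.2 (mem_Icc.2 ⟨?_, hS'.2⟩)
      exact Nat.one_le_iff_ne_zero.2 (prod_ne_zero_iff.2 fun p hp => (hpr p hp).ne_zero)
    · intro S hS T hT hST
      have hS' := mem_filter.1 (mem_coe.1 hS)
      have hT' := mem_filter.1 (mem_coe.1 hT)
      have hpr : ∀ p ∈ S, p.Prime := fun p hp =>
        (mem_filter.1 ((mem_powerset.1 hS'.1) hp)).2
      have hpr' : ∀ p ∈ T, p.Prime := fun p hp =>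
        (mem_filter.1 ((mem_powerset.1 hT'.1) hp)).2
      rw [← Nat.primeFactors_prod hpr, ← Nat.primeFactors_prod hpr']
      exact congrArg Nat.primeFactors hST
  rw [Nat.card_Icc, Nat.add_sub_cancel] at h
  exact_mod_cast h

theorem gap (hcnt : St_CNT) : St_GAP := by
  classical
  intro B K hK hF z p X hz hp hzp
  have hp0 : (0 : ℝ) < p := by exact_mod_cast hp.pos
  set N : ℕ := K * z ^ B with hN
  set Ω : Finset ℕ := (Ico X (3 * X)).filter (fun n => n % p ^ 2 < p) with hΩ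
  have key := hF z hz Ω (fun _ => 1) (fun q m => m % q ^ 2 < q) (2 * X / p)
    (fun _ _ => zero_le_one) (by positivity)
  have hE : ∀ S ∈ (primesTo z).powerset.filter (fun S : Finset ℕ => ∏ p ∈ S, p ≤ N),
      |∑ _m ∈ Ω.filter (fun m => ∀ q ∈ S, m % q ^ 2 < q), (1 : ℝ) -
        2 * X / p * ∏ q ∈ S, 1 / (q : ℝ)| ≤ p * N := by
    intro S hS
    obtain ⟨hS1, hS2⟩ := mem_filter.1 hS
    rw [mem_powerset] at hS1
    have hSp : p ∉ S := by
      intro h
      have := (mem_Icc.1 (mem_filter.1 (hS1 h)).1).2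
      omega
    have hSpr : ∀ q ∈ S, q.Prime := fun q hq => (mem_filter.1 (hS1 hq)).2
    have hadm : Adm id (primesTo p) p := by
      intro q hq
      obtain ⟨h1, h2⟩ := mem_filter.1 hq
      rw [mem_Icc] at h1
      refine ⟨h2, h1.2, h1.1, ?_⟩
      simp only [id]
      omega
    have hsub : insert p S ⊆ primesTo p := by
      intro q hq
      rcases mem_insert.1 hq with rfl | hq
      · exact mem_filter.2 ⟨mem_Icc.2 ⟨hp.one_le, le_rfl⟩, hp⟩
      · have h1 := mem_filter.1 (hS1 hq)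
        have h2 := mem_Icc.1 h1.1
        exact mem_filter.2 ⟨mem_Icc.2 ⟨h2.1, by omega⟩, h1.2⟩
    have hc := hcnt id (primesTo p) (insert p S) p X (2 * X) hadm hsub
    have e1 : ∑ y ∈ Ico X (X + 2 * X), ind id (insert p S) y =
        ∑ _m ∈ Ω.filter (fun m => ∀ q ∈ S, m % q ^ 2 < q), (1 : ℝ) := by
      have e3 : X + 2 * X = 3 * X := by ring
      rw [e3, hΩ, filter_filter]
      unfold ind
      rw [← sum_filter]
      refine sum_congr ?_ fun _ _ => rfl
      ext m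
      simp only [mem_filter, mem_insert, forall_eq_or_imp, id]
    have e2 : den id (insert p S) = 1 / p * ∏ q ∈ S, 1 / (q : ℝ) := by
      unfold den
      rw [prod_insert hSp]
      congr 1
      · simp only [id]
        field_simp
      · refine prod_congr rfl fun q hq => ?_
        have : (0 : ℝ) < q := by exact_mod_cast (hSpr q hq).pos
        simp only [id]
        field_simp
    have e4 : ∏ q ∈ insert p S, ((id q : ℕ) : ℝ) = p * ∏ q ∈ S, (q : ℝ) := by
      rw [prod_insert hSp]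
      rfl
    rw [e1, e2, e4] at hc
    push_cast at hc
    have e5 : 2 * (X : ℝ) * (1 / p * ∏ q ∈ S, 1 / (q : ℝ)) =
        2 * X / p * ∏ q ∈ S, 1 / (q : ℝ) := by ring
    rw [e5] at hc
    refine hc.trans ?_
    have h6 : (∏ q ∈ S, (q : ℝ)) ≤ N := by
      have : ((∏ q ∈ S, q : ℕ) : ℝ) ≤ N := by exact_mod_cast hS2
      push_cast at this
      exact this
    exact mul_le_mul_of_nonneg_left h6 hp0.le
  have hsum : ∑ S ∈ (primesTo z).powerset.filter (fun S : Finset ℕ => ∏ p ∈ S, p ≤ N),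
      |∑ _m ∈ Ω.filter (fun m => ∀ q ∈ S, m % q ^ 2 < q), (1 : ℝ) -
        2 * X / p * ∏ q ∈ S, 1 / (q : ℝ)| ≤ N * (p * N) := by
    refine (sum_le_sum hE).trans ?_
    rw [sum_const, nsmul_eq_mul]
    exact mul_le_mul_of_nonneg_right (gap_card z N) (by positivity)
  have hlog : 0 ≤ Real.log z := Real.log_natCast_nonneg z
  have hcard : (((Ico X (3 * X)).filter (fun n => n % p ^ 2 < p ∧
      ∀ q ∈ primesTo z, ¬ n % q ^ 2 < q)).card : ℝ) =
      ∑ _m ∈ Ω.filter (fun m => ∀ q ∈ primesTo z, ¬ m % q ^ 2 < q), (1 : ℝ) := by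
    rw [sum_const, nsmul_eq_mul, mul_one, hΩ, filter_filter]
  rw [hcard]
  have h7 : ∑ _m ∈ Ω.filter (fun m => ∀ q ∈ primesTo z, ¬ m % q ^ 2 < q), (1 : ℝ) -
      2 * X / p * V z ≤ 1 / 2 * (2 * X / p * V z) + K * (1 + Real.log z) *
      ∑ S ∈ (primesTo z).powerset.filter (fun S : Finset ℕ => ∏ p ∈ S, p ≤ N),
      |∑ _m ∈ Ω.filter (fun m => ∀ q ∈ S, m % q ^ 2 < q), (1 : ℝ) -
        2 * X / p * ∏ q ∈ S, 1 / (q : ℝ)| := by
    refine le_of_eq_of_le ?_ ((abs_le.1 key).2.trans (le_of_eq ?_))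
    · congr!
    · congr!
  have h8 : (K : ℝ) * (1 + Real.log z) * ∑ S ∈ (primesTo z).powerset.filter
      (fun S : Finset ℕ => ∏ p ∈ S, p ≤ N),
      |∑ _m ∈ Ω.filter (fun m => ∀ q ∈ S, m % q ^ 2 < q), (1 : ℝ) -
        2 * X / p * ∏ q ∈ S, 1 / (q : ℝ)| ≤ K * (1 + Real.log z) * (N * (p * N)) :=
    mul_le_mul_of_nonneg_left hsum (by positivity)
  have h9 : (K : ℝ) * (1 + Real.log z) * (N * (p * N)) =
      K * (1 + Real.log z) * p * (K * (z : ℝ) ^ B) ^ 2 := by
    rw [hN]; push_cast; ring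
  have h10 : 3 * (X : ℝ) / p * V z = 2 * X / p * V z + 1 / 2 * (2 * X / p * V z) := by ring
  rw [h10, ← h9]
  linarith

end Pool.Agent.H9R5.EP
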